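import Mathlib
import Pool.Agent.U157.RA.Br
import Pool.Agent.U157.EC.Tw

/-!
# Ratios of successive critical values at the central point, zeros of any order

Let `A` be an elliptic curve over `ℚ` with complex multiplication by the imaginary quadratic field
`K = ℚ(√d)`, and `φ` its Hecke character, `L(A / K, s) = L(φ, s) L(φ̄, s)`. Let `L / k` be a Galois extension
of number fields which contain `K`, with group `Q`, `w ≥ 1`, and `ρ` a representation of `Q`, of dimension
`n`, over a number field `E` which contains `K`. The motive `M₀ = φ ^ w ⊗ ρ` over the totally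
imaginary field `k` has coefficients in `E` and the Hodge types `(w, 0)`, `(0, w)`; its critical integers
are `1, …, w`. Let `w / 2 < m < w`. The number of the problem is
`(i ^ (d_k / 2) Δ_k) ^ n = (i √d) ^ (n [k : K])`.

In `CentralRatiosCM` (helper213) the order at `s = m` of the L-function of `φ ^ w` over `L` is at most two, or `Q` is
solvable. Here there is no condition on the orders of the zeros, and `Q` need not be solvable: only the set of
the *special* characters matters, the irreducible characters `χ` of `Q` for which `L(κφ ^ w ⊗ χ, s)` over `k`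
has a zero at `s = m`, for one embedding `κ` of `K` in `ℂ`.

`Pool.Agent.R389.AN G`: the group `G` has an abelian normal subgroup with nilpotent quotient.

**Theorem.** (A) Let `U` be a normal subgroup of `Q` on which all special characters are trivial. If `ρ` has no nonzero
vectors fixed by `U`, then the ratio `L(m, M) / L(m + 1, M)` of the values of the completed L-functions of
`M = Res_{k/ℚ} M₀` is `τ(e) (i √d) ^ (n [k : K])`, for one `e` in `E` and all embeddings `τ` of `E` in `ℂ`, and
`L(m, M) ≠ 0` at all embeddings (so `e ≠ 0`, and this is the statement of the problem). The formula holds for all `ρ`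
(then `e` may be zero) if `Q / U` has an abelian normal subgroup with nilpotent quotient, or if `Q / U` is solvable and
the order of the zero grows little in `L / k`: for some linear character `λ` of `Q / U` the order of the L-function of
`φ ^ w` over `L` is less than the order of `L(κφ ^ w ⊗ λ, s)` over `k` plus `p`, for all prime divisors `p` of the order
of `Q / U`.
(B) If every special character has a small image (it is trivial on a normal subgroup `U` such that `Q / U` has an
abelian normal subgroup with nilpotent quotient, or it is induced from a linear character of a normal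
subgroup with nilpotent quotient), then the formula holds for all `ρ`.
(C) Let `L` be the composite of an extension of `k` with group `A_n` or `S_n`, `n ≥ 5`, and an abelian extension of `k` (so
`Q` is a subgroup of the product of the symmetric group and an abelian group `B`), and let all special characters
have degree at most `r < (2 ^ i - 1) ⌊n / 2 ^ i⌋` for some `i ≥ 2`. Then the formula holds for all `ρ`, and
`L(m, M) ≠ 0` if `ρ` has no nonzero vectors fixed by the commutator group of `Q` (isomorphic to `A_n`).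

At the points `m` different from the central point `(w + 1) / 2` there are no zeros, and the result follows from
Brauer's induction theorem and the case of Hecke characters. The definitions of `Data`, `IsL`, `completed`, `Ratio` and
`MonomialTheorem` are those of `Pool.Agent.U213.RA.Defs` (helper213). The hypothesis `MonomialTheorem` is a
published theorem, a consequence of Deligne's conjecture for the critical values of Hecke L-functions (Blasius, Harder,
Kings–Sprang, Kufner): the case of the representations which are induced from linear characters of subgroups.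
-/

set_option autoImplicit false

open Pool.Agent.U213.RA Pool.Agent.R389 Pool.Agent.H541R3.ART

namespace Pool.Agent.Results.MP_c63a07_nt.CentralRatiosAnyOrder

section

variable {K F : Type} [Field K] [NumberField K] [Field F] [NumberField F] [Algebra K F]
  [IsGalois K F] (D : Data K F) (w m : ℕ) (κ : K →+* ℂ) (H : Subgroup (F ≃ₐ[K] F)) {Q : Type} [Group Q]
  (π : H →* Q)

/-- `σ` is the representation of `Gal(F/K)` induced from `ρ ∘ π` (it has the induced character). -/
def Induced {E : Type} [Field E] {n N : ℕ} (ρ : Q →* Matrix (Fin n) (Fin n) E)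
    (σ : (F ≃ₐ[K] F) →* Matrix (Fin N) (Fin N) E) : Prop :=
  ∀ g, (σ g).trace = ind H (fun h => (ρ (π h)).trace) g

/-- The formula for the ratio `L(m, M) / L(m + 1, M)`, for all representations `ρ` of `Q` over all number
fields `E ⊇ K`. -/
def Holds : Prop :=
  ∀ (E : Type) [Field E] [NumberField E] (j : K →+* E) (n : ℕ) (ρ : Q →* Matrix (Fin n) (Fin n) E)
    (N : ℕ) (σ : (F ≃ₐ[K] F) →* Matrix (Fin N) (Fin N) E), Induced H π ρ σ → D.Ratio w m j σ

/-- The formula for the ratio and `L(m, M) ≠ 0` at all embeddings, for all representations `ρ` of `Q` over all number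
fields `E ⊇ K` which have no nonzero vector fixed by `U`. -/
def HoldsNonzero (U : Subgroup Q) : Prop :=
  ∀ (E : Type) [Field E] [NumberField E] (j : K →+* E) (n : ℕ) (ρ : Q →* Matrix (Fin n) (Fin n) E),
    (∀ v : Fin n → E, (∀ x ∈ U, (ρ x).mulVec v = v) → v = 0) →
    ∀ (N : ℕ) (σ : (F ≃ₐ[K] F) →* Matrix (Fin N) (Fin N) E), Induced H π ρ σ →
      D.Ratio w m j σ ∧ ∀ (τ : E →+* ℂ) (ℓ : ℂ → ℂ),
        D.IsL w (τ.comp j) (fun g => τ (σ g).trace) ℓ → meromorphicOrderAt ℓ m = 0

/-- `Q / U` is solvable, and for a linear character `λ` of `Q / U` the order at `s = m` of the L-function of `φ ^ w`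
over `L` is less than the order of `L(κφ ^ w ⊗ λ, s)` over `k` plus `p` for all prime divisors `p` of the
order of `Q / U`. -/
def SmallGrowth (U : Subgroup Q) [U.Normal] : Prop :=
  Group.IsSolvable (Q ⧸ U) ∧ ∃ (ℓ : ℂ → ℂ) (lam : (Q ⧸ U) →* ℂˣ) (ℓ₁ : ℂ → ℂ),
    D.IsL w κ (ind (π.ker.map H.subtype) (fun _ => 1)) ℓ ∧
    D.IsL w κ (ind H (fun h => ((lam (QuotientGroup.mk (π h)) : ℂˣ) : ℂ))) ℓ₁ ∧
    ∀ p : ℕ, p.Prime → p ∣ Nat.card (Q ⧸ U) →
      meromorphicOrderAt ℓ m < meromorphicOrderAt ℓ₁ m + p

/-- `χ` is irreducible and `L(κφ ^ w ⊗ χ, s)` over `k` has a zero (or a pole) at `s = m`. -/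
def Special (χ : Q → ℂ) : Prop :=
  χ ∈ Irr Q ∧ ∃ ℓ : ℂ → ℂ, D.IsL w κ (ind H (fun h => χ (π h))) ℓ ∧ meromorphicOrderAt ℓ m ≠ 0

end

/-- The image of the irreducible character `χ` has an abelian normal subgroup with nilpotent quotient: `χ` is trivial
on a normal subgroup `U` such that `G / U` has this property; or `χ` is induced from a linear character of a normal
subgroup `V` with nilpotent quotient `G / V`. -/
def SmallImage {G : Type} [Group G] (χ : G → ℂ) : Prop :=
  (∃ (U : Subgroup G) (_ : U.Normal), (∀ x ∈ U, χ x = χ 1) ∧ AN (G ⧸ U)) ∨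
  (∃ (V : Subgroup G) (_ : V.Normal) (lam : V →* ℂˣ), Group.IsNilpotent (G ⧸ V) ∧
    χ = ind V (fun h => ((lam h : ℂˣ) : ℂ)))

end Pool.Agent.Results.MP_c63a07_nt.CentralRatiosAnyOrder

open Pool.Agent.Results.MP_c63a07_nt.CentralRatiosAnyOrder

/-- **Ratios of critical values at the central point, zeros of any order.** -/
theorem Pool.Agent.Results.MP_c63a07_nt.CentralRatiosAnyOrder.result (monomial : MonomialTheorem)
    (K F : Type) [Field K] [NumberField K] [Field F] [NumberField F] [Algebra K F] [IsGalois K F]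
    (D : Data K F) (w m : ℕ) (hm : w < 2 * m) (hw : m < w) (κ : K →+* ℂ)
    -- the extension `L / k` with group `Q`
    (H : Subgroup (F ≃ₐ[K] F)) (Q : Type) [Group Q] [Finite Q] (π : H →* Q)
    (hπ : Function.Surjective π) :
    (∀ (U : Subgroup Q) [U.Normal], (∀ χ, Special D w m κ H π χ → ∀ x ∈ U, χ x = χ 1) →
      HoldsNonzero D w m H π U ∧ (AN (Q ⧸ U) ∨ SmallGrowth D w m κ H π U → Holds D w m H π)) ∧
    ((∀ χ, Special D w m κ H π χ → SmallImage χ) → Holds D w m H π) ∧
    (∀ (r n i : ℕ) (f : Q →* Equiv.Perm (Fin n)) (B : Type) [CommGroup B] (g : Q →* B), 5 ≤ n → 2 ≤ i →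
      r < (2 ^ i - 1) * (n / 2 ^ i) → (∀ x, f x = 1 → g x = 1 → x = 1) →
      alternatingGroup (Fin n) ≤ f.range →
      (∀ χ, Special D w m κ H π χ → ∃ d : ℕ, d ≤ r ∧ χ 1 = d) →
      Holds D w m H π ∧ HoldsNonzero D w m H π (commutator Q)) := by
  have hA : ∀ (U : Subgroup Q) [U.Normal], (∀ χ, Special D w m κ H π χ → ∀ x ∈ U, χ x = χ 1) →
      HoldsNonzero D w m H π U ∧ (AN (Q ⧸ U) ∨ SmallGrowth D w m κ H π U → Holds D w m H π) := by
    intro U _ hU
    have h1 : Pool.Agent.U157.RA.Const D w m κ H π U :=
      Pool.Agent.U157.RA.const_of_special (fun χ hχ h0 => hU χ ⟨hχ, h0⟩)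
    refine ⟨fun E _ _ j n ρ hρ N σ hσ => ?_, fun hQ E _ _ j n ρ N σ hσ => ?_⟩
    · exact Pool.Agent.U157.RA.ra_new hm hw monomial hπ U h1 E j n ρ hρ N σ hσ
    · refine Pool.Agent.U157.RA.ra_all hm hw monomial hπ (fun E _ _ j ζ hζ l P A => ?_) E j n ρ N σ hσ
      obtain ⟨τ₀, hτ₀⟩ := Data.exists_ext j κ
      refine ⟨τ₀, ?_⟩
      rcases hQ with hQ | ⟨hs, ℓ, lam, ℓ₁, hℓ, hℓ₁, hz⟩
      · exact ⟨U, inferInstance, hQ, h1 E j ζ hζ l P A τ₀ hτ₀⟩
      · exact Pool.Agent.U157.RA.small_up hπ h1 hℓ hs lam hℓ₁ hz E j ζ hζ l P A τ₀ hτ₀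
  refine ⟨hA, fun hs => ?_, fun r n i f B _ g hn hi hlt hf hA' hr => ?_⟩
  · obtain ⟨U, hUn, hU, hUa⟩ := Pool.Agent.U157.DL.exists_kernel
      (Z := fun χ => Special D w m κ H π χ) (fun χ hχ h0 => by
        rcases hs χ h0 with ⟨K, hKn, h1, h2⟩ | ⟨H, hHn, lam, h1, h2⟩
        · exact ⟨K, hKn, h1, h2⟩
        · refine ⟨⁅H, H⁆, inferInstance, fun k hk => ?_, Pool.Agent.U157.DL.an_comm H h1⟩
          rw [h2]
          exact Pool.Agent.U157.DL.ind_comm H lam hk)
    exact (hA U (fun χ hχ => hU χ hχ.1 hχ)).2 (Or.inl hUa)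
  · obtain ⟨h2, h3⟩ := Pool.Agent.U157.EC.prod_setup hn hi hlt f g hf hA'
    have h4 := hA _ (fun χ hχ => by
      obtain ⟨d, hd, hd1⟩ := hr χ hχ
      exact Pool.Agent.U157.DL.small_trivial _ h2 hχ.1 hd1 hd)
    exact ⟨h4.2 (Or.inl h3), h4.1⟩
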