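import Pool.Agent.U213.RA.Over

/-!
# Ratios of successive critical values at the central point: Artin twists of powers of CM Hecke characters

Let `A` be an elliptic curve over `ℚ` with complex multiplication by the imaginary quadratic field
`K = ℚ(√d)`, and `φ` its Hecke character, `L(A / K, s) = L(φ, s) L(φ̄, s)`. Let `L / k` be a Galois extension
of number fields which contain `K`, with group `Q`, `w ≥ 1`, and `ρ` a representation of `Q`, of dimension
`n`, over a number field `E` which contains `K`. The motive `M₀ = φ ^ w ⊗ ρ` over the totally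
imaginary field `k` has coefficients in `E` and the Hodge types `(w, 0)`, `(0, w)`; its critical integers
are `1, …, w`. Let `w / 2 < m < w`. The number of the problem is
`(i ^ (d_k / 2) Δ_k) ^ n = (i √d) ^ (n [k : K])`.

We prove that the ratio `L(m, M) / L(m + 1, M)` of the values of the completed L-functions of
`M = Res_{k/ℚ} M₀` is `τ(e) (i √d) ^ (n [k : K])`, for one `e` in `E` and all embeddings `τ` of `E` in `ℂ`, if
the order `r` at `s = m` of the L-function of `φ ^ w` over `L` satisfies one of the conditions

* `r ≤ 1`;
* `r ≤ 2`, and no twist by the two-dimensional character of a quaternion group of order eight, a quotient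
  of the Galois group of `L` over a field between `k` and `L`, has a simple zero;
* `Q` is solvable and, for a linear character `λ` of `Q`, `r` is less than the order of `L(φ ^ w ⊗ λ, s)` over
  `k` plus `p`, for all prime divisors `p` of the degree of `L / k`. (There is no bound on `r`.)

(If `L(m, M)` is not zero at one embedding, then `e` is not zero, and this is the statement of the
problem.) The new case is the central point `m = (w + 1) / 2`, `w` odd. At the other `m` there are no
zeros, and the result follows from Brauer's induction theorem and the case of Hecke characters.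

The data `D : Data K F`: `K = ℚ(√d)`; a Weierstrass equation of `A` over `ℤ`; a number field `F`, Galois over
`K`; a finite set `S` of primes of `K` which contains the bad and the ramified ones; arithmetic Frobenius
elements `Frob_v` and the numbers `φ(v)` in `K` at the other primes `v`: `φ(v)` has the norm `N v` and the
trace `a_v`, and its conjugate is in `v`. The field `k` is the fixed field of the subgroup `H` of
`Gal(F/K)`, and `L` is the one of the kernel of the surjective homomorphism `π : H → Q`. The
representation `σ` of `Gal(F/K)`, of dimension `N = n [k : K]`, is induced from `ρ ∘ π`.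

`D.IsL w κ f ℓ`: `ℓ` is the function `L(κφ ^ w ⊗ f, s)` for the embedding `κ` of `K` in `ℂ`, the product of the
`det (1 - κφ(v) ^ w σ(Frob_v) (N v) ^ (-s))⁻¹` over the primes `v ∉ S`. `D.completed N ℓ s` is
`Γ_ℂ(s) ^ N ℓ(s)`. `D.Ratio w m j σ`: the assertion on the ratio. The Euler factors at the primes in `S` are
omitted; their ratios are nonzero elements of `E`.

The hypothesis `MonomialTheorem` is a published theorem, a consequence of Deligne's conjecture for the critical
values of Hecke L-functions (Blasius, Harder, Kings–Sprang, Kufner): the case of the representations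
which are induced from linear characters of subgroups. The group theory is in `Pool.Agent.R389` (`main`,
`main_two`, `main_small`); new is its application to the ratios, for all coefficient fields and base fields
(`Pool.Agent.U213.RA`).
-/

set_option autoImplicit false

open Pool.Agent.U213.RA Pool.Agent.R389

namespace Pool.Agent.Results.MP_c63a07_nt.CentralRatiosCM

/-- The conditions on the order at `m` of `ℓ₀`, the L-function of `φ ^ w` over `L`. -/
def SmallOrder {K F : Type} [Field K] [NumberField K] [Field F] [NumberField F] [Algebra K F]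
    [IsGalois K F] (D : Data K F) (w m : ℕ) (κ : K →+* ℂ) (H : Subgroup (F ≃ₐ[K] F)) {Q : Type}
    [Group Q] [Finite Q] (π : H →* Q) (ℓ₀ : ℂ → ℂ) : Prop :=
  meromorphicOrderAt ℓ₀ m ≤ 1 ∨
  (meromorphicOrderAt ℓ₀ m ≤ 2 ∧ ∀ (U : Subgroup Q) (f : U →* QuaternionGroup 2),
    Function.Surjective f → ∀ ℓ : ℂ → ℂ,
      D.IsL w κ (ind H (fun h => ind U (fun u => Pool.Agent.H302R2.quatChar (f u)) (π h))) ℓ →
      meromorphicOrderAt ℓ m ≠ 1) ∨
  (Group.IsSolvable Q ∧ ∃ (lam : Q →* ℂˣ) (ℓ₁ : ℂ → ℂ),
    D.IsL w κ (ind H (fun h => ((lam (π h) : ℂˣ) : ℂ))) ℓ₁ ∧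
    ∀ p : ℕ, p.Prime → p ∣ Nat.card Q → meromorphicOrderAt ℓ₀ m < meromorphicOrderAt ℓ₁ m + p)

theorem result (monomial : MonomialTheorem)
    (K F : Type) [Field K] [NumberField K] [Field F] [NumberField F] [Algebra K F] [IsGalois K F]
    (D : Data K F) (w m : ℕ) (hm : w < 2 * m) (hw : m < w)
    -- the extension `L / k` with group `Q`, and the L-function of `φ ^ w` over `L`
    (H : Subgroup (F ≃ₐ[K] F)) (Q : Type) [Group Q] [Finite Q] (π : H →* Q)
    (hπ : Function.Surjective π) (κ : K →+* ℂ)
    (ℓ₀ : ℂ → ℂ) (hℓ₀ : D.IsL w κ (ind (π.ker.map H.subtype) (fun _ => 1)) ℓ₀)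
    (small : SmallOrder D w m κ H π ℓ₀)
    -- a representation `ρ` of `Q` over `E`, and the representation `σ` induced from `ρ ∘ π`
    (E : Type) [Field E] [NumberField E] (j : K →+* E) (n : ℕ) (ρ : Q →* Matrix (Fin n) (Fin n) E)
    (N : ℕ) (σ : (F ≃ₐ[K] F) →* Matrix (Fin N) (Fin N) E)
    (hσ : ∀ g, (σ g).trace = ind H (fun h => (ρ (π h)).trace) g) :
    D.Ratio w m j σ := by
  rcases small with h | ⟨h, hq⟩ | ⟨hQ, lam, ℓ₁, hℓ₁, hz⟩
  · exact Data.over_one hm hw monomial D H π hπ hℓ₀ h E j n ρ N σ hσ
  · exact Data.over_two hm hw monomial D H π hπ hℓ₀ h hq E j n ρ N σ hσ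
  · exact Data.over_solvable hm hw monomial D H π hπ hQ lam hℓ₀ hℓ₁ hz E j n ρ N σ hσ

end Pool.Agent.Results.MP_c63a07_nt.CentralRatiosCM
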