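import Pool.Agent.U143.RG.Del

/-!
# Ratios of successive critical values for Artin twists: only the solvable layers are needed

`F` is a totally imaginary number field, `M₀` a pure motive over `F` of rank `n` with coefficients in a
number field `E`, `Λ/F` a finite Galois extension with group `G`, and `m`, `m + 1` are critical. The question
is whether the ratio of the completed L-values at `m` and `m + 1` of `M₀ ⊗ ρ` (a motive of rank `n dim ρ`),
`ρ` a representation of `G` over `E`, is `(1 ⊗ i^(d_F/2) Δ_F)^(n dim ρ)` up to an element of `E`. The new case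
is the central point `m` (the value at `m + 1` is then not zero): if the completed L-function of `M₀` over
the top field has a zero at `m`, then Brauer's theorem gives only quotients `0 / 0`.

`L τ χ` is the component at the embedding `τ` of `E` of the completed L-function of the twist of `M₀` by the
irreducible character `χ` of `G`. The hypothesis is the formula for the abelian twists over the intermediate
fields `F'` such that the top field is SOLVABLE over `F'` (the characters `Ind_U^G ψ`, `U` solvable): this is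
the range of the descent of a cuspidal representation from the top field (Arthur–Clozel) and of the theorem
on the ratios for cohomological representations. Nothing is assumed for the nonsolvable subgroups, not even
that the L-functions are holomorphic at `m`.

The normal subgroup `N` is built from layers which are direct products of groups `A_k` (`k ≥ 8`, `r ≤ k - 3`,
or `r ≤ k - 2` and `k` not prime) and `SL_2(q)` (`q` even, `r ≤ q - 2`), or abelian with more than `r`
conjugates of each nontrivial linear character; `r` bounds the growth of the order at `m` along a chain of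
solvable layers (for instance the order at `m` of the L-function over the top field).

The proof uses the rigidity of the class functions with nonnegative multiplicities at the linear characters of
solvable subgroups (`Pool.Agent.U143.RG`) and the relative Brauer theorem of the starting library
(`Pool.Agent.R389`).
-/

set_option autoImplicit false

open Filter Topology NumberField

namespace Pool.Agent.Results.MP_c63a07_nt.SolvableInputs

open Pool.Agent.H541R3.ART (Irr)
open Pool.Agent.R389 (ind IsDecomp)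

/-- `Δ` is the number `Δ_F` of the problem. TR-case: `F` contains no CM field and `Δ = 1`. CM-case: `F₀` is the
maximal totally real subfield of `F`, `D` a totally negative element of `F₀` which is a square in `F` (so
`F₁ = F₀(√D)` is the maximal CM subfield), `δ` a square root of `N_{F₀/ℚ}(D)`, and `Δ = δ ^ [F : F₁]`. -/
def IsDelta (F : Type) [Field F] [NumberField F] (Δ : ℂ) : Prop :=
  ((∀ M : IntermediateField ℚ F, ¬ IsCMField M) ∧ Δ = 1) ∨
  ∃ (F₀ : IntermediateField ℚ F) (D : F₀) (x : F) (δ : ℂ), IsTotallyReal F₀ ∧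
    (∀ M : IntermediateField ℚ F, IsTotallyReal M → M ≤ F₀) ∧
    (∀ φ : F₀ →+* ℂ, (φ D).re < 0) ∧ x ^ 2 = (D : F) ∧
    δ ^ 2 = ((Algebra.norm ℚ D : ℚ) : ℂ) ∧
    Δ = δ ^ (Module.finrank ℚ F / (2 * Module.finrank ℚ F₀))

/-- The completed L-functions of the twists of a motive `M₀` of rank `n` with coefficients in `E` by the
irreducible characters of `G`, for all embeddings of `E`: meromorphic and not identically zero near `m`,
analytic and different from zero at `m + 1`. -/
structure TwistData (G : Type) [Group G] (E : Type) [Field E] where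
  /-- the completed L-function of the twist by `χ` at the embedding `τ` -/
  L : (E →+* ℂ) → (G → ℂ) → ℂ → ℂ
  /-- the rank of `M₀` -/
  n : ℕ
  /-- the point -/
  m : ℤ
  mero : ∀ τ, ∀ χ ∈ Irr G, MeromorphicAt (L τ χ) m ∧ meromorphicOrderAt (L τ χ) m ≠ ⊤
  next : ∀ τ, ∀ χ ∈ Irr G, AnalyticAt ℂ (L τ χ) (m + 1) ∧ L τ χ (m + 1) ≠ 0

/-- The order at `m` of the L-function, at the embedding `τ`, of the twist by the character which
contains `χ` with the multiplicity `μ χ`. -/
noncomputable def TwistData.order {G : Type} [Group G] {E : Type} [Field E] (D : TwistData G E)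
    (τ : E →+* ℂ) (μ : (G → ℂ) → ℕ) : WithTop ℤ :=
  meromorphicOrderAt (fun s => ∏ᶠ χ ∈ Irr G, D.L τ χ s ^ μ χ) D.m

/-- At the embedding `τ` the order at `m` of the L-function over the fixed field of `C (i + 1)` is smaller by
at most `r` than the one for `C i`, where `⊥ = C 0 ≤ C 1 ≤ … ≤ C t` is a chain of solvable normal subgroups
of `G`, and it is at most `r` for `C t`. For `t = 0`: the order at `m` of the L-function over the top field is
at most `r`. -/
def TwistData.GrowsBy {G : Type} [Group G] {E : Type} [Field E] (D : TwistData G E)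
    (τ : E →+* ℂ) (r : ℕ) : Prop :=
  ∃ (t : ℕ) (C : ℕ → Subgroup G), Monotone C ∧ (∀ i, (C i).Normal) ∧ C 0 = ⊥ ∧
    Group.IsSolvable (C t) ∧
    (∀ i < t, ∀ μ μ' : (G → ℂ) → ℕ, IsDecomp (ind (C i) (fun _ => 1)) μ →
      IsDecomp (ind (C (i + 1)) (fun _ => 1)) μ' → D.order τ μ ≤ D.order τ μ' + (r : WithTop ℤ)) ∧
    (∀ μ : (G → ℂ) → ℕ, IsDecomp (ind (C t) (fun _ => 1)) μ → D.order τ μ ≤ (r : WithTop ℤ))

/-- **The formula for the ratio.** Let `f` be the character of a representation `ρ` of dimension `d` over `E`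
and `κ = i^(d_F/2) Δ_F`. There is one element `e` of `E` such that for every embedding `τ` of `E` the quotient
of the values at `m` (the limit) and at `m + 1` of the completed L-function of `M₀ ⊗ ρ` is `τ e` times
`κ ^ (n d)`. -/
def TwistData.Ratio {G : Type} [Group G] {E : Type} [Field E] (D : TwistData G E) (κ : ℂ)
    (f : G → E) (d : ℕ) : Prop :=
  ∃ e : E, ∀ (τ : E →+* ℂ) (μ : (G → ℂ) → ℕ), IsDecomp (fun g => τ (f g)) μ →
    Tendsto (fun s => (∏ᶠ χ ∈ Irr G, D.L τ χ s ^ μ χ) / ∏ᶠ χ ∈ Irr G, D.L τ χ (D.m + 1) ^ μ χ)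
      (𝓝[≠] (D.m : ℂ)) (𝓝 (τ e * κ ^ (D.n * d)))

/-- The formula for the ratio, with an element `e ≠ 0`: the value at `m` is not zero at any embedding. -/
def TwistData.NonzeroRatio {G : Type} [Group G] {E : Type} [Field E] (D : TwistData G E) (κ : ℂ)
    (f : G → E) (d : ℕ) : Prop :=
  ∃ e : E, e ≠ 0 ∧ ∀ (τ : E →+* ℂ) (μ : (G → ℂ) → ℕ), IsDecomp (fun g => τ (f g)) μ →
    Tendsto (fun s => (∏ᶠ χ ∈ Irr G, D.L τ χ s ^ μ χ) / ∏ᶠ χ ∈ Irr G, D.L τ χ (D.m + 1) ^ μ χ)
      (𝓝[≠] (D.m : ℂ)) (𝓝 (τ e * κ ^ (D.n * d)))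

/-- `S` is isomorphic to an alternating group of degree `k ≥ 8` with `r ≤ k - 3`, or `r ≤ k - 2` and `k`
not prime, or to `SL_2(F)` for a finite field `F` of characteristic two with at least `r + 2` elements. -/
def Factor (r : ℕ) (S : Type) [Group S] : Prop :=
  (∃ k : ℕ, 8 ≤ k ∧ (r + 3 ≤ k ∨ (r + 2 ≤ k ∧ ¬ k.Prime)) ∧
    Nonempty (S ≃* alternatingGroup (Fin k))) ∨
  (∃ (k : Type) (_ : Field k) (_ : Finite k) (_ : CharP k 2), r + 2 ≤ Nat.card k ∧
    Nonempty (S ≃* Matrix.SpecialLinearGroup (Fin 2) k))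

/-- The normal subgroup `A` of `Q` is a direct product of finitely many groups with the property `Factor r`,
or it is abelian and every linear character `lam ≠ 1` of `A` has more than `r` different conjugates
`a ↦ lam (g a g⁻¹)`, `g ∈ Q`. -/
def Layer (r : ℕ) {Q : Type} [Group Q] (A : Subgroup Q) : Prop :=
  (∃ (l : ℕ) (S : Fin l → Type) (_ : ∀ j, Group (S j)),
    (∀ j, Factor r (S j)) ∧ Nonempty (A ≃* ∀ j, S j)) ∨
  ((∀ a ∈ A, ∀ b ∈ A, a * b = b * a) ∧ ∀ lam : A →* ℂˣ, lam ≠ 1 →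
    r < {mu : A →* ℂˣ | ∃ g : Q, ∀ a b : A, (b : Q) = g * a * g⁻¹ → mu a = lam b}.ncard)

/-- There is a chain `1 = C 0 ≤ C 1 ≤ … ≤ C t = N` of normal subgroups of `G` such that the image of
`C (i + 1)` in `G / C i` has the property `Layer r`, for `i < t`. -/
def Built (r : ℕ) {G : Type} [Group G] (N : Subgroup G) : Prop :=
  ∃ (t : ℕ) (C : ℕ → Subgroup G) (_ : ∀ i, (C i).Normal), C 0 = ⊥ ∧ C t = N ∧ Monotone C ∧
    ∀ i < t, Layer r ((C (i + 1)).map (QuotientGroup.mk' (C i)))

end Pool.Agent.Results.MP_c63a07_nt.SolvableInputs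

open Pool.Agent.H541R3.ART (Irr irrF)
open Pool.Agent.R389 (ind IsDecomp Deligne AN)
open Pool.Agent.Results.MP_c63a07_nt.SolvableInputs

theorem Pool.Agent.Results.MP_c63a07_nt.SolvableInputs.Factor.finite {r : ℕ} {S : Type} [Group S]
    (h : Factor r S) : Finite S := by
  rcases h with ⟨m, -, -, ⟨e⟩⟩ | ⟨k, _, _, _, -, ⟨e⟩⟩
  · exact Finite.of_equiv _ e.symm.toEquiv
  · exact Finite.of_equiv _ e.symm.toEquiv

theorem Pool.Agent.Results.MP_c63a07_nt.SolvableInputs.Factor.rigid {r : ℕ} {S : Type} [Group S]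
    (h : Factor r S) : Pool.Agent.U143.RG.SRigid r S := by
  have hf := h.finite
  rcases h with ⟨m, hm, hr, ⟨e⟩⟩ | ⟨k, _, _, _, hr, ⟨e⟩⟩
  · exact (Pool.Agent.U143.RG.alt_range hm hr).of_surj e.symm.toMonoidHom e.symm.surjective
  · exact (Pool.Agent.U143.RG.sl2_rigid hr).of_surj e.symm.toMonoidHom e.symm.surjective

theorem Pool.Agent.Results.MP_c63a07_nt.SolvableInputs.Layer.const {r : ℕ} {Q : Type} [Group Q]
    [Finite Q] {A : Subgroup Q} (hA : A.Normal) (h : Layer r A) {θ : Q → ℂ}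
    (hθ : Pool.Agent.H302R3.IsSolHeilbronn θ) {s : ℕ} (hs : s ≤ r) (h1 : θ 1 = s) :
    ∀ n ∈ A, ∀ x, θ (n * x) = θ x := by
  rcases h with ⟨l, S, _, hS, ⟨e⟩⟩ | ⟨hc, ho⟩
  · have hfin : ∀ j, Finite (S j) := fun j => (hS j).finite
    exact Pool.Agent.U143.RG.const_of_prod hθ hs h1 A (fun j => (hS j).rigid)
      (A.subtype.comp e.symm.toMonoidHom) fun n hn => ⟨e ⟨n, hn⟩, by simp⟩
  · exact Pool.Agent.U143.RG.const_of_orbit hθ hs h1 A hc ho

theorem Pool.Agent.Results.MP_c63a07_nt.SolvableInputs.Built.const {r : ℕ} {G : Type} [Group G]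
    [Finite G] {N : Subgroup G} (h : Built r N) {θ : G → ℂ}
    (hθ : Pool.Agent.H302R3.IsSolHeilbronn θ) {s : ℕ} (hs : s ≤ r) (h1 : θ 1 = s) :
    ∀ n ∈ N, ∀ x, θ (n * x) = θ x := by
  obtain ⟨t, C, hn, h0, rfl, -, hl⟩ := h
  exact Pool.Agent.U143.RG.const_chain hθ h1 t C hn h0 fun i hi η hη hη1 =>
    (hl i hi).const (Subgroup.Normal.map (hn (i + 1)) _ (QuotientGroup.mk'_surjective _)) hη hs hη1

namespace Pool.Agent.Results.MP_c63a07_nt.SolvableInputs

theorem IsDelta.ne_zero {F : Type} [Field F] [NumberField F] {Δ : ℂ} (h : IsDelta F Δ) : Δ ≠ 0 := by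
  rcases h with ⟨-, rfl⟩ | ⟨F₀, D, x, δ, -, -, hneg, -, hδ, rfl⟩
  · exact one_ne_zero
  · obtain ⟨φ⟩ : Nonempty (F₀ →+* ℂ) := inferInstance
    have hD : D ≠ 0 := by
      rintro rfl
      have := hneg φ
      rw [map_zero, Complex.zero_re] at this
      exact lt_irrefl _ this
    refine pow_ne_zero _ fun h0 => ?_
    rw [h0, zero_pow two_ne_zero] at hδ
    have h1 : Algebra.norm ℚ D = 0 := by exact_mod_cast hδ.symm
    exact hD (Algebra.norm_eq_zero_iff.1 h1)

variable {G : Type} [Group G] [Finite G] {E : Type} [Field E] (D : TwistData G E) (κ : ℂ)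

/-- the degree of an irreducible character -/
noncomputable def dg (χ : G → ℂ) : ℕ := ⌊(χ 1).re⌋₊

omit [Finite G] in
theorem dg_spec {χ : G → ℂ} (hχ : χ ∈ Irr G) : χ 1 = dg χ := by
  obtain ⟨n, ρ, hρ, rfl⟩ := hχ
  unfold dg
  rw [Representation.char_one, Module.finrank_fin_fun, Complex.natCast_re, Nat.floor_natCast]

/-- the period which corresponds to the ratio -/
noncomputable def per (τ : E →+* ℂ) (χ : G → ℂ) : ℂ :=
  κ ^ (D.n * dg χ) * D.L τ χ (D.m + 1)

theorem per_prod {f : G → E} {d : ℕ} (hf : f 1 = d) {τ : E →+* ℂ} {μ : (G → ℂ) → ℕ}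
    (hμ : IsDecomp (fun g => τ (f g)) μ) : ∏ᶠ χ ∈ Irr G, per D κ τ χ ^ μ χ =
      κ ^ (D.n * d) * ∏ᶠ χ ∈ Irr G, D.L τ χ (D.m + 1) ^ μ χ := by
  classical
  rw [Pool.Agent.R389.finprod_irr (fun χ => per D κ τ χ ^ μ χ),
    Pool.Agent.R389.finprod_irr (fun χ => D.L τ χ (D.m + 1) ^ μ χ)]
  have h1 : (d : ℂ) = ∑ χ ∈ irrF G, (μ χ : ℂ) * dg χ := by
    have h2 := hμ 1
    simp only [hf, map_natCast] at h2
    rw [h2, Pool.Agent.R389.finsum_irr (fun χ => (μ χ : ℂ) * χ 1)]
    exact Finset.sum_congr rfl fun χ hχ => by rw [dg_spec (Pool.Agent.H541R3.ART.mem_irrF.1 hχ)]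
  have h3 : d = ∑ χ ∈ irrF G, μ χ * dg χ := by exact_mod_cast h1
  have h4 : ∀ χ ∈ irrF G, per D κ τ χ ^ μ χ =
      κ ^ (D.n * (μ χ * dg χ)) * D.L τ χ (D.m + 1) ^ μ χ := by
    intro χ _
    unfold per
    rw [mul_pow, ← pow_mul]
    congr 2
    ring
  rw [Finset.prod_congr rfl h4, Finset.prod_mul_distrib, Finset.prod_pow_eq_pow_sum,
    ← Finset.mul_sum, ← h3]

theorem next_ne (τ : E →+* ℂ) (μ : (G → ℂ) → ℕ) :
    ∏ᶠ χ ∈ Irr G, D.L τ χ (D.m + 1) ^ μ χ ≠ 0 := by
  rw [Pool.Agent.R389.finprod_irr (fun χ => D.L τ χ (D.m + 1) ^ μ χ)]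
  exact Finset.prod_ne_zero_iff.2 fun χ hχ =>
    pow_ne_zero _ (D.next τ χ (Pool.Agent.H541R3.ART.mem_irrF.1 hχ)).2

theorem lim_iff {f : G → E} {d : ℕ} (hf : f 1 = d) {τ : E →+* ℂ} {μ : (G → ℂ) → ℕ}
    (hμ : IsDecomp (fun g => τ (f g)) μ) (e : E) :
    Tendsto (fun s => (∏ᶠ χ ∈ Irr G, D.L τ χ s ^ μ χ) / ∏ᶠ χ ∈ Irr G, D.L τ χ (D.m + 1) ^ μ χ)
      (𝓝[≠] (D.m : ℂ)) (𝓝 (τ e * κ ^ (D.n * d))) ↔
    Tendsto (fun s => ∏ᶠ χ ∈ Irr G, D.L τ χ s ^ μ χ) (𝓝[≠] (D.m : ℂ))
      (𝓝 (τ e * ∏ᶠ χ ∈ Irr G, per D κ τ χ ^ μ χ)) := by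
  have h0 := next_ne D τ μ
  rw [per_prod D κ hf hμ]
  constructor
  · intro h
    have h1 := h.mul_const (∏ᶠ χ ∈ Irr G, D.L τ χ (D.m + 1) ^ μ χ)
    rw [mul_assoc] at h1
    refine h1.congr fun s => ?_
    rw [div_mul_cancel₀ _ h0]
  · intro h
    have h1 := h.div_const (∏ᶠ χ ∈ Irr G, D.L τ χ (D.m + 1) ^ μ χ)
    rw [← mul_assoc, mul_div_assoc, div_self h0, mul_one] at h1
    exact h1

theorem ratio_iff {f : G → E} {d : ℕ} (hf : f 1 = d) :
    D.Ratio κ f d ↔ Deligne D.L (per D κ) D.m f := by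
  unfold TwistData.Ratio Deligne
  exact exists_congr fun e => forall_congr' fun τ => forall_congr' fun μ =>
    forall_congr' fun hμ => lim_iff D κ hf hμ e

omit [Finite G] in
theorem ind_one [Finite G] [CharZero E] (U : Subgroup G) (ψ : U →* Eˣ) :
    ind U (fun u => ((ψ u : Eˣ) : E)) 1 = (U.index : E) := by
  classical
  let _ : Fintype G := Fintype.ofFinite G
  have h1 : ∀ x : G, Pool.Agent.R389.ext U (fun u => ((ψ u : Eˣ) : E)) (x⁻¹ * 1 * x) = 1 := by
    intro x
    have h2 : x⁻¹ * 1 * x = 1 := by group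
    rw [h2]
    unfold Pool.Agent.R389.ext
    rw [dif_pos U.one_mem]
    have h3 : (⟨1, U.one_mem⟩ : U) = 1 := rfl
    rw [h3]
    change ((ψ 1 : Eˣ) : E) = 1
    rw [map_one, Units.val_one]
  unfold Pool.Agent.R389.ind
  rw [finsum_eq_sum_of_fintype, Finset.sum_congr rfl fun x _ => h1 x, Finset.sum_const,
    Finset.card_univ, nsmul_eq_mul, mul_one, ← Nat.card_eq_fintype_card, ← U.card_mul_index]
  have h4 : ((Nat.card U : ℕ) : E) ≠ 0 := by exact_mod_cast Nat.card_pos.ne'
  push_cast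
  rw [← mul_assoc, inv_mul_cancel₀ h4, one_mul]

end Pool.Agent.Results.MP_c63a07_nt.SolvableInputs

/-- **The ratio of successive critical values from the solvable layers.** Let `F` be a totally imaginary
number field, `κ = i^(d_F/2) Δ_F`, `Λ/F` a finite Galois extension with group `G`, `M₀` a motive over `F` with
coefficients in `E` (the data `D`: the completed L-functions of its twists by the irreducible characters of
`G`), and let `E` contain a primitive root of unity of order the exponent of `G`. Suppose that the formula for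
the ratio of the values at `m` and `m + 1` holds for the twists by the characters induced from the linear
characters of the SOLVABLE subgroups of `G`, and that at one embedding `τ₀` of `E` the order at `m` of the
L-function grows by at most `r` along a chain of fields as in `TwistData.GrowsBy` (for example: the order at
`m` of the L-function over `Λ` is at most `r`). Let the normal subgroup `N` be built from products of groups
`A_k`, `SL_2(2^k)` in the range of `r` and from abelian groups with more than `r` conjugates of each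
nontrivial character.
* For every representation `ρ` of `G` over `E` without nonzero vectors fixed by `N` the formula holds for
  `M₀ ⊗ ρ`, and the value at `m` is not zero, at all embeddings.
* For every subgroup `U` whose image in `G / N` is solvable and every linear character `ψ` of `U`, the formula
  holds for the twist by `Ind_U^G ψ`.
* If the formula holds for the twists by the representations on which `N` acts trivially, then it holds for
  the twists by all representations of `G` over `E`.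
* It holds for all representations of `G` over `E` if `G / N` has an abelian normal subgroup with nilpotent
  quotient. -/
theorem Pool.Agent.Results.MP_c63a07_nt.SolvableInputs.result
    (F : Type) [Field F] [NumberField F] (_hF : IsTotallyComplex F) (Δ : ℂ) (hΔ : IsDelta F Δ)
    (Λ : Type) [Field Λ] [NumberField Λ] [Algebra F Λ] [IsGalois F Λ]
    (E : Type) [Field E] [NumberField E] (ζ : E) (hζ : IsPrimitiveRoot ζ (Monoid.exponent (Λ ≃ₐ[F] Λ)))
    (D : TwistData (Λ ≃ₐ[F] Λ) E) (κ : ℂ) (hκ : κ = Complex.I ^ (Module.finrank ℚ F / 2) * Δ)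
    (hmon : ∀ (U : Subgroup (Λ ≃ₐ[F] Λ)) (ψ : U →* Eˣ), Group.IsSolvable U →
      D.Ratio κ (ind U (fun u => ((ψ u : Eˣ) : E))) U.index)
    (τ₀ : E →+* ℂ) (r : ℕ) (hr : D.GrowsBy τ₀ r)
    (N : Subgroup (Λ ≃ₐ[F] Λ)) (hN : N.Normal) (hNb : Built r N) :
    (∀ (V : Type) [AddCommGroup V] [Module E V] [FiniteDimensional E V]
      (ρ : Representation E (Λ ≃ₐ[F] Λ) V), (∀ v, (∀ k ∈ N, ρ k v = v) → v = 0) →
      D.NonzeroRatio κ ρ.character (Module.finrank E V)) ∧
    (∀ U : Subgroup (Λ ≃ₐ[F] Λ), Group.IsSolvable (U.map (QuotientGroup.mk' N)) → ∀ ψ : U →* Eˣ,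
      D.Ratio κ (ind U (fun u => ((ψ u : Eˣ) : E))) U.index) ∧
    ((∀ (W : Type) [AddCommGroup W] [Module E W] [FiniteDimensional E W]
        (σ : Representation E (Λ ≃ₐ[F] Λ) W), (∀ k ∈ N, ∀ w, σ k w = w) →
        D.Ratio κ σ.character (Module.finrank E W)) →
      ∀ (V : Type) [AddCommGroup V] [Module E V] [FiniteDimensional E V]
        (ρ : Representation E (Λ ≃ₐ[F] Λ) V), D.Ratio κ ρ.character (Module.finrank E V)) ∧
    (AN ((Λ ≃ₐ[F] Λ) ⧸ N) → ∀ (V : Type) [AddCommGroup V] [Module E V] [FiniteDimensional E V]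
      (ρ : Representation E (Λ ≃ₐ[F] Λ) V), D.Ratio κ ρ.character (Module.finrank E V)) := by
  have hG : Finite (Λ ≃ₐ[F] Λ) := inferInstance
  have hκ0 : κ ≠ 0 := by
    rw [hκ]
    exact mul_ne_zero (pow_ne_zero _ Complex.I_ne_zero) hΔ.ne_zero
  have hP : ∀ τ, ∀ χ ∈ Irr (Λ ≃ₐ[F] Λ), per D κ τ χ ≠ 0 := fun τ χ hχ =>
    mul_ne_zero (pow_ne_zero _ hκ0) (D.next τ χ hχ).2
  have hmon' : ∀ (U : Subgroup (Λ ≃ₐ[F] Λ)) (ψ : U →* Eˣ), Group.IsSolvable U →
      Deligne D.L (per D κ) D.m (ind U (fun u => ((ψ u : Eˣ) : E))) := fun U ψ hU =>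
    (ratio_iff D κ (ind_one U ψ)).1 (hmon U ψ hU)
  have hchar : ∀ {V : Type} [AddCommGroup V] [Module E V] [FiniteDimensional E V]
      (ρ : Representation E (Λ ≃ₐ[F] Λ) V), ρ.character 1 = (Module.finrank E V : E) :=
    fun ρ => Representation.char_one ρ
  obtain ⟨t, C, hC, hn, h0, hs, hg, hl⟩ := hr
  have hcos : ∀ n ∈ N, ∀ x, (Pool.Agent.H541R3.ART.theta (Pool.Agent.R389.ords (D.L τ₀) D.m) :
      (Λ ≃ₐ[F] Λ) → ℂ) (n * x)
        = (Pool.Agent.H541R3.ART.theta (Pool.Agent.R389.ords (D.L τ₀) D.m) :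
          (Λ ≃ₐ[F] Λ) → ℂ) x := by
    refine Pool.Agent.U143.RG.ords_prop (D.mero τ₀)
      (Pool.Agent.U143.RG.nonneg_ords hζ D.mero hmon' τ₀) r t C hC hn h0 hs hg hl
      (fun θ => ∀ n ∈ N, ∀ x, θ (n * x) = θ x) (fun a b ha hb n hn x => ?_)
      fun η hη s hsr h1 => hNb.const hη hsr h1
    simp only [ha n hn x, hb n hn x]
  have hK : ∀ k ∈ N, (Pool.Agent.H541R3.ART.theta (Pool.Agent.R389.ords (D.L τ₀) D.m) :
      (Λ ≃ₐ[F] Λ) → ℂ) k
      = (Pool.Agent.H541R3.ART.theta (Pool.Agent.R389.ords (D.L τ₀) D.m) :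
        (Λ ≃ₐ[F] Λ) → ℂ) 1 := fun k hk => by
    have h := hcos k hk 1
    rwa [mul_one] at h
  have hmonT : ∀ (U : Subgroup (Λ ≃ₐ[F] Λ)) (ψ : U →* Eˣ), Pool.Agent.R389.Tame U →
      Deligne D.L (per D κ) D.m (ind U (fun u => ((ψ u : Eˣ) : E))) :=
    fun U ψ hU => hmon' U ψ hU.solvable
  refine ⟨fun V _ _ _ ρ hρ => ?_, fun U hU ψ => ?_, fun hold V _ _ _ ρ => ?_,
    fun hQ V _ _ _ ρ => ?_⟩
  · obtain ⟨e, he, h1⟩ := Pool.Agent.U143.RG.new_deligne hζ D.mero hP hmonT τ₀ N hK ρ hρ
    exact ⟨e, he, fun τ μ hμ => (lim_iff D κ (hchar ρ) hμ e).2 (h1 τ μ hμ)⟩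
  · exact (ratio_iff D κ (ind_one U ψ)).2
      (Pool.Agent.U143.RG.mono_deligne hζ D.mero hP hmon' τ₀ N hK U hU ψ)
  · exact (ratio_iff D κ (hchar ρ)).2 (Pool.Agent.U143.RG.all_deligne hζ D.mero hP hmonT τ₀ N hK
      (fun W _ _ _ σ hσ => (ratio_iff D κ (hchar σ)).1 (hold W σ hσ)) ρ)
  · refine (ratio_iff D κ (hchar ρ)).2 (Pool.Agent.U143.RG.all_deligne hζ D.mero hP hmonT τ₀ N hK
      (fun W _ _ _ σ hσ => ?_) ρ)
    have hQs : Group.IsSolvable ((Λ ≃ₐ[F] Λ) ⧸ N) := Pool.Agent.U143.RG.an_solvable hQ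
    exact Pool.Agent.U143.RG.old_deligne hζ D.mero hP
      (fun U ψ => Pool.Agent.U143.RG.mono_deligne hζ D.mero hP hmon' τ₀ N hK U
        (Group.isSolvable_of_isSolvable_injective (Subgroup.subtype_injective _)) ψ) τ₀ N hQ σ hσ
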